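import Pool.Agent.Q213.KV.Semi

/-!
The vocabulary of Kato–Voigt perturbation theory, on an ordered Banach space `X` with a functional
`I : X → ℝ`; it is applied to `X = L¹(ν)`, with the almost everywhere order, and `I φ = ∫ φ dν`.
-/

namespace Pool.Agent.Q213.KV

open Filter Topology Set

variable {X : Type*} [NormedAddCommGroup X] [NormedSpace ℝ X]

/-- `S` is a substochastic `C₀`-semigroup: strongly continuous, positive and contractive. -/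
structure IsSubstochastic [PartialOrder X] (S : ℝ → X →L[ℝ] X) : Prop extends IsC0 S where
  pos : ∀ t, 0 ≤ t → ∀ φ, 0 ≤ φ → 0 ≤ S t φ
  contr : ∀ t, 0 ≤ t → ‖S t‖ ≤ 1

/-- The hypotheses on `P` (a linear operator defined on the subspace `P.domain`), relative to the
generator `M₁` of `S₁`: `P` is positive, `D(M₁) ⊆ D(P)`, and `I (M₁ φ + P φ) ≤ 0` for all
`0 ≤ φ ∈ D(M₁)`. -/
structure Admissible [PartialOrder X] (I : X → ℝ) (S₁ : ℝ → X →L[ℝ] X) (P : X →ₗ.[ℝ] X) :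
    Prop where
  pos : ∀ φ : P.domain, 0 ≤ (φ : X) → 0 ≤ P φ
  dom : ∀ φ y, Gen S₁ φ y → φ ∈ P.domain
  diss : ∀ φ y z, Gen S₁ φ y → (φ, z) ∈ P.graph → 0 ≤ φ → I (y + z) ≤ 0

/-- The graph of the operator `M₁ + P` with domain `D(M₁)`. -/
def sumGraph (S₁ : ℝ → X →L[ℝ] X) (P : X →ₗ.[ℝ] X) : Set (X × X) :=
  {p | ∃ y z, Gen S₁ p.1 y ∧ (p.1, z) ∈ P.graph ∧ p.2 = y + z}

/-- The graph of the generator of `J`. -/
def genGraph (J : ℝ → X →L[ℝ] X) : Set (X × X) :=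
  {p | Gen J p.1 p.2}

/-- `J` is the Kato–Voigt semigroup: the minimal substochastic `C₀`-semigroup whose generator
extends `M₁ + P`. -/
structure IsKatoVoigt [PartialOrder X] (S₁ : ℝ → X →L[ℝ] X) (P : X →ₗ.[ℝ] X)
    (J : ℝ → X →L[ℝ] X) : Prop where
  sub : IsSubstochastic J
  ext : sumGraph S₁ P ⊆ genGraph J
  minimal : ∀ J', IsSubstochastic J' → sumGraph S₁ P ⊆ genGraph J' →
    ∀ t, 0 ≤ t → ∀ φ, 0 ≤ φ → J t φ ≤ J' t φ

/-- `K` is the operator `P(0 - M₁)⁻¹`, the strong limit of `P(r - M₁)⁻¹` as `r → 0+`: here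
`R r u` is the unique `φ ∈ D(M₁)` with `r φ - M₁ φ = u`, and `Q r u` is `P (R r u)`. -/
def IsPZero (S₁ : ℝ → X →L[ℝ] X) (P : X →ₗ.[ℝ] X) (K : X →L[ℝ] X) : Prop :=
  ∃ R Q : ℝ → X → X,
    (∀ r, 0 < r → ∀ u φ, Gen S₁ φ (r • φ - u) ↔ φ = R r u) ∧
    (∀ r, 0 < r → ∀ u, (R r u, Q r u) ∈ P.graph) ∧
    ∀ u, Tendsto (fun r => Q r u) (𝓝[>] 0) (𝓝 (K u))

/-- `I (M₁ φ + P φ) = 0` for all `φ ∈ D(M₁)`. -/
def Conservative (I : X → ℝ) (S₁ : ℝ → X →L[ℝ] X) (P : X →ₗ.[ℝ] X) : Prop :=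
  ∀ p ∈ sumGraph S₁ P, I p.2 = 0

/-- `‖S₁(t)‖ ≤ e^{-t}` for `t ≥ 0`; such an `S₁` is strongly (even uniformly) stable. -/
def ExpStable (S₁ : ℝ → X →L[ℝ] X) : Prop :=
  ∀ t, 0 ≤ t → ‖S₁ t‖ ≤ Real.exp (-t)

/-- `J` is honest: its generator is the closure of `M₁ + P` (on `D(M₁)`). -/
def Honest (S₁ : ℝ → X →L[ℝ] X) (P : X →ₗ.[ℝ] X) (J : ℝ → X →L[ℝ] X) : Prop :=
  genGraph J = closure (sumGraph S₁ P)

/-- `J` is genuinely honest: its generator is `M₁ + P` (on `D(M₁)`). -/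
def GenuinelyHonest (S₁ : ℝ → X →L[ℝ] X) (P : X →ₗ.[ℝ] X) (J : ℝ → X →L[ℝ] X) : Prop :=
  genGraph J = sumGraph S₁ P

/-- `v` is a nonzero nonnegative element of `D(J₁)` outside `D(M₁)` with `J₁ v = 0`. -/
def IsOuterNull [PartialOrder X] (S₁ J : ℝ → X →L[ℝ] X) (v : X) : Prop :=
  0 ≤ v ∧ v ≠ 0 ∧ Gen J v 0 ∧ ∀ y, ¬ Gen S₁ v y

/-- `1` is an eigenvalue of `K`. -/
def OneIsEigenvalue (K : X →L[ℝ] X) : Prop := ∃ u, u ≠ 0 ∧ K u = u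

end Pool.Agent.Q213.KV
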