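import Pool.Agent.Q213.KV.Semi

/-!
Multiplication operators on real `L¹` spaces.
-/

namespace Pool.Agent.Q213.KV

open MeasureTheory Filter Topology Set

variable {Ξ : Type*} [MeasurableSpace Ξ] {ν : Measure Ξ}

/-- `g` is measurable and bounded by `1` in absolute value. -/
structure Bd (g : Ξ → ℝ) : Prop where
  meas : Measurable g
  le : ∀ x, |g x| ≤ 1

lemma Bd.integrable {g : Ξ → ℝ} (hg : Bd g) {f : Ξ → ℝ} (hf : Integrable f ν) :
    Integrable (fun x => g x * f x) ν :=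
  hf.bdd_mul (c := 1) hg.meas.aestronglyMeasurable (Eventually.of_forall hg.le)

/-- Multiplication by the bounded function `g` as an operator on `L¹(ν)`. -/
noncomputable def mulOp (ν : Measure Ξ) {g : Ξ → ℝ} (hg : Bd g) : Lp ℝ 1 ν →L[ℝ] Lp ℝ 1 ν :=
  LinearMap.mkContinuous
    { toFun := fun φ => (hg.integrable (L1.integrable_coeFn φ)).toL1 _
      map_add' := by
        intro φ ψ
        rw [← Integrable.toL1_add]
        rw [Integrable.toL1_eq_toL1_iff]
        filter_upwards [Lp.coeFn_add φ ψ] with x hx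
        simp only [Pi.add_apply, hx]
        ring
      map_smul' := by
        intro c φ
        rw [RingHom.id_apply, ← Integrable.toL1_smul]
        rw [Integrable.toL1_eq_toL1_iff]
        filter_upwards [Lp.coeFn_smul c φ] with x hx
        simp only [Pi.smul_apply, hx, smul_eq_mul]
        ring } 1 (by
    intro φ
    rw [one_mul, LinearMap.coe_mk, AddHom.coe_mk, L1.norm_eq_integral_norm,
      L1.norm_eq_integral_norm]
    refine integral_mono_ae ?_ ?_ ?_
    · exact (L1.integrable_coeFn _).norm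
    · exact (L1.integrable_coeFn _).norm
    · filter_upwards [Integrable.coeFn_toL1 (hg.integrable (L1.integrable_coeFn φ))] with x hx
      rw [hx, norm_mul]
      exact mul_le_of_le_one_left (norm_nonneg _) (hg.le x))

lemma mulOp_coe {g : Ξ → ℝ} (hg : Bd g) (φ : Lp ℝ 1 ν) :
    (mulOp ν hg φ : Ξ → ℝ) =ᵐ[ν] fun x => g x * φ x :=
  Integrable.coeFn_toL1 (hg.integrable (L1.integrable_coeFn φ))

lemma mulOp_norm {g : Ξ → ℝ} (hg : Bd g) {C : ℝ} (hC : 0 ≤ C) (h : ∀ x, |g x| ≤ C) :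
    ‖mulOp ν hg‖ ≤ C := by
  refine ContinuousLinearMap.opNorm_le_bound _ hC fun φ => ?_
  rw [L1.norm_eq_integral_norm, L1.norm_eq_integral_norm, ← integral_const_mul]
  refine integral_mono_ae ?_ ?_ ?_
  · exact (L1.integrable_coeFn _).norm
  · exact (L1.integrable_coeFn _).norm.const_mul _
  · filter_upwards [mulOp_coe hg φ] with x hx
    rw [hx, norm_mul]
    exact mul_le_mul_of_nonneg_right (h x) (norm_nonneg _)

lemma mulOp_nonneg {g : Ξ → ℝ} (hg : Bd g) (h : ∀ x, 0 ≤ g x) {φ : Lp ℝ 1 ν} (hφ : 0 ≤ φ) :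
    0 ≤ mulOp ν hg φ := by
  rw [← Lp.coeFn_nonneg] at hφ ⊢
  filter_upwards [mulOp_coe hg φ, hφ] with x hx h2
  rw [hx]
  exact mul_nonneg (h x) h2

/-- Dominated convergence in `L¹`. -/
lemma tendsto_L1 {l : Filter ℝ} [l.IsCountablyGenerated] {F : ℝ → Lp ℝ 1 ν} {f : Lp ℝ 1 ν}
    {G : Ξ → ℝ} (hG : Integrable G ν) (hb : ∀ᶠ t in l, ∀ᵐ x ∂ν, |F t x - f x| ≤ G x)
    {H : ℝ → Ξ → ℝ} (hH : ∀ t, F t =ᵐ[ν] H t) (hlim : ∀ᵐ x ∂ν, Tendsto (fun t => H t x) l (𝓝 (f x)))
    (hm : ∀ t, AEStronglyMeasurable (H t) ν) :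
    Tendsto F l (𝓝 f) := by
  rw [tendsto_iff_norm_sub_tendsto_zero]
  have e : ∀ t, ‖F t - f‖ = ∫ x, ‖H t x - f x‖ ∂ν := by
    intro t
    rw [L1.norm_eq_integral_norm]
    refine integral_congr_ae ?_
    filter_upwards [Lp.coeFn_sub (F t) f, hH t] with x hx h2
    rw [hx, Pi.sub_apply, h2]
  simp only [e]
  have h0 : (0 : ℝ) = ∫ _ : Ξ, (0 : ℝ) ∂ν := by simp
  rw [h0]
  refine tendsto_integral_filter_of_dominated_convergence G ?_ ?_ hG ?_
  · exact Eventually.of_forall fun t => ((hm t).sub (Lp.aestronglyMeasurable f)).norm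
  · filter_upwards [hb] with t ht
    filter_upwards [ht, hH t] with x hx h2
    rw [norm_norm, Real.norm_eq_abs, ← h2]
    exact hx
  · filter_upwards [hlim] with x hx
    have := (hx.sub_const (f x)).norm
    simpa using this

/-- Strong convergence of multiplication operators. -/
lemma mulOp_tendsto {l : Filter ℝ} [l.IsCountablyGenerated] {g : ℝ → Ξ → ℝ} {g₀ : Ξ → ℝ}
    (hg : ∀ t, Bd (g t)) (hg₀ : Bd g₀) (h : ∀ x, Tendsto (fun t => g t x) l (𝓝 (g₀ x)))
    (φ : Lp ℝ 1 ν) : Tendsto (fun t => mulOp ν (hg t) φ) l (𝓝 (mulOp ν hg₀ φ)) := by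
  refine tendsto_L1 (G := fun x => 2 * ‖φ x‖) (H := fun t x => g t x * φ x)
    ((L1.integrable_coeFn φ).norm.const_mul 2) ?_ (fun t => mulOp_coe (hg t) φ) ?_ ?_
  · refine Eventually.of_forall fun t => ?_
    filter_upwards [mulOp_coe (hg t) φ, mulOp_coe hg₀ φ] with x h1 h2
    rw [h1, h2, ← sub_mul, abs_mul, Real.norm_eq_abs]
    refine mul_le_mul_of_nonneg_right ?_ (abs_nonneg _)
    calc |g t x - g₀ x| ≤ |g t x| + |g₀ x| := abs_sub _ _
      _ ≤ 1 + 1 := add_le_add ((hg t).le x) (hg₀.le x)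
      _ = 2 := by norm_num
  · filter_upwards [mulOp_coe hg₀ φ] with x h1
    rw [h1]
    exact (h x).mul_const _
  · intro t
    exact (hg t).meas.aestronglyMeasurable.mul (Lp.aestronglyMeasurable φ)

end Pool.Agent.Q213.KV
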