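import Pool.Agent.Q213.KV.Defs
import Pool.Agent.Q213.KV.Mul

/-!
The example: multiplication by `-(1 + b)` with `b ≥ 0` not integrable, perturbed by
`φ ↦ (∫ φ) 1 + b φ`.
-/

namespace Pool.Agent.Q213.KV

open MeasureTheory Filter Topology Set

variable {Ξ : Type*} [MeasurableSpace Ξ] {ν : Measure Ξ}

/-- The symbol of the absorption semigroup. -/
noncomputable def sy (b : Ξ → ℝ) (t : ℝ) (x : Ξ) : ℝ := Real.exp (-(max t 0 * (1 + b x)))

lemma sy_bd {b : Ξ → ℝ} (hb : Measurable b) (hb0 : ∀ x, 0 ≤ b x) (t : ℝ) : Bd (sy b t) := by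
  refine ⟨?_, fun x => ?_⟩
  · unfold sy
    fun_prop
  · unfold sy
    rw [abs_of_pos (Real.exp_pos _), Real.exp_le_one_iff, neg_nonpos]
    exact mul_nonneg (le_max_right _ _) (by linarith [hb0 x])

/-- The absorption semigroup. -/
noncomputable def S1 (ν : Measure Ξ) {b : Ξ → ℝ} (hb : Measurable b) (hb0 : ∀ x, 0 ≤ b x) (t : ℝ) :
    Lp ℝ 1 ν →L[ℝ] Lp ℝ 1 ν :=
  mulOp ν (sy_bd hb hb0 t)

section

variable {b : Ξ → ℝ} (hb : Measurable b) (hb0 : ∀ x, 0 ≤ b x)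

lemma S1_coe (t : ℝ) (φ : Lp ℝ 1 ν) :
    (S1 ν hb hb0 t φ : Ξ → ℝ) =ᵐ[ν] fun x => sy b t x * φ x := mulOp_coe _ φ

lemma S1_norm {t : ℝ} (ht : 0 ≤ t) : ‖S1 ν hb hb0 t‖ ≤ Real.exp (-t) := by
  refine mulOp_norm _ (Real.exp_pos _).le fun x => ?_
  unfold sy
  rw [abs_of_pos (Real.exp_pos _), Real.exp_le_exp, max_eq_left ht]
  nlinarith [mul_nonneg ht (hb0 x)]

omit [MeasurableSpace Ξ] in
lemma sy_tendsto (x : Ξ) : Tendsto (fun t => sy b t x) (𝓝[>] 0) (𝓝 1) := by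
  have h : Continuous fun t : ℝ => sy b t x := by
    unfold sy
    fun_prop
  have h2 := h.tendsto 0
  have h3 : sy b 0 x = 1 := by simp [sy]
  rw [h3] at h2
  exact h2.mono_left nhdsWithin_le_nhds

lemma S1_sub : IsSubstochastic (S1 ν hb hb0) where
  zero := by
    intro φ
    refine Lp.ext ?_
    filter_upwards [S1_coe hb hb0 0 φ] with x hx
    rw [hx]
    simp [sy]
  add := by
    intro s t hs ht φ
    refine Lp.ext ?_
    filter_upwards [S1_coe hb hb0 (s + t) φ, S1_coe hb hb0 s (S1 ν hb hb0 t φ),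
      S1_coe hb hb0 t φ] with x h1 h2 h3
    rw [h1, h2, h3, ← mul_assoc]
    congr 1
    unfold sy
    rw [← Real.exp_add, max_eq_left hs, max_eq_left ht, max_eq_left (add_nonneg hs ht)]
    congr 1
    ring
  cont := by
    intro φ
    have h1 : Bd (fun _ : Ξ => (1 : ℝ)) := ⟨measurable_const, fun x => by simp⟩
    have h2 : mulOp ν h1 φ = φ := by
      refine Lp.ext ?_
      filter_upwards [mulOp_coe h1 φ] with x hx
      rw [hx, one_mul]
    have h3 := mulOp_tendsto (ν := ν) (l := 𝓝[>] (0 : ℝ)) (fun t => sy_bd hb hb0 t) h1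
      (fun x => sy_tendsto x) φ
    rw [h2] at h3
    exact h3
  pos := by
    intro t _ φ hφ
    exact mulOp_nonneg _ (fun x => (Real.exp_pos _).le) hφ
  contr := by
    intro t ht
    refine (S1_norm hb hb0 ht).trans ?_
    rw [Real.exp_le_one_iff]
    linarith

/-- The generator of the absorption semigroup is multiplication by `-(1 + b)`. -/
lemma S1_gen (φ y : Lp ℝ 1 ν) :
    Gen (S1 ν hb hb0) φ y ↔ (y : Ξ → ℝ) =ᵐ[ν] fun x => -((1 + b x) * φ x) := by
  have hq : ∀ x, Tendsto (fun t : ℝ => t⁻¹ * (sy b t x - 1)) (𝓝[>] 0) (𝓝 (-(1 + b x))) := by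
    intro x
    have h1 : HasDerivAt (fun t : ℝ => Real.exp (-(t * (1 + b x)))) (-(1 + b x)) 0 := by
      have := (((hasDerivAt_id (0 : ℝ)).mul_const (1 + b x)).neg).exp
      simpa using this
    have h2 := (hasDerivWithinAt_iff_tendsto_slope' (s := Ioi (0 : ℝ)) (by simp)).1
      (h1.hasDerivWithinAt (s := Ioi 0))
    refine h2.congr' ?_
    filter_upwards [self_mem_nhdsWithin] with t ht
    have ht' : (0 : ℝ) < t := ht
    rw [slope_def_module]
    simp [sy, max_eq_left ht'.le]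
  have hF : ∀ t : ℝ, ((t⁻¹ • (S1 ν hb hb0 t φ - φ) : Lp ℝ 1 ν) : Ξ → ℝ) =ᵐ[ν]
      fun x => t⁻¹ * (sy b t x - 1) * φ x := by
    intro t
    filter_upwards [Lp.coeFn_smul t⁻¹ (S1 ν hb hb0 t φ - φ), Lp.coeFn_sub (S1 ν hb hb0 t φ) φ,
      S1_coe hb hb0 t φ] with x h1 h2 h3
    rw [h1, Pi.smul_apply, h2, Pi.sub_apply, h3, smul_eq_mul]
    ring
  constructor
  · intro h
    have h1 := tendstoInMeasure_of_tendsto_Lp h
    obtain ⟨ns, hns, hae⟩ := h1.exists_seq_tendsto_ae'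
    have h2 : ∀ᵐ x ∂ν, ∀ i, ((((ns i)⁻¹ • (S1 ν hb hb0 (ns i) φ - φ) : Lp ℝ 1 ν) : Ξ → ℝ) x)
        = (ns i)⁻¹ * (sy b (ns i) x - 1) * φ x := ae_all_iff.2 fun i => hF (ns i)
    filter_upwards [hae, h2] with x h3 h4
    have h5 : Tendsto (fun i => (ns i)⁻¹ * (sy b (ns i) x - 1) * φ x) atTop
        (𝓝 (-(1 + b x) * φ x)) := ((hq x).comp hns).mul_const _
    have h6 : Tendsto (fun i => (ns i)⁻¹ * (sy b (ns i) x - 1) * φ x) atTop (𝓝 (y x)) := by
      refine h3.congr fun i => ?_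
      exact h4 i
    rw [tendsto_nhds_unique h6 h5]
    ring
  · intro h
    refine tendsto_L1 (G := fun x => 2 * ‖y x‖) (H := fun t x => t⁻¹ * (sy b t x - 1) * φ x)
      ((L1.integrable_coeFn y).norm.const_mul 2) ?_ hF ?_ ?_
    · filter_upwards [self_mem_nhdsWithin] with t ht
      have ht' : (0 : ℝ) < t := ht
      filter_upwards [hF t, h] with x h1 h2
      rw [h1]
      have h3 : |t⁻¹ * (sy b t x - 1)| ≤ 1 + b x := by
        have h4 : sy b t x ≤ 1 := le_of_abs_le ((sy_bd hb hb0 t).le x)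
        have h5 : 1 - t * (1 + b x) ≤ sy b t x := by
          unfold sy
          rw [max_eq_left ht'.le]
          linarith [Real.add_one_le_exp (-(t * (1 + b x)))]
        rw [abs_mul, abs_of_pos (inv_pos.2 ht'), abs_of_nonpos (by linarith)]
        rw [inv_mul_le_iff₀ ht']
        linarith
      have h6 : |t⁻¹ * (sy b t x - 1) * φ x| ≤ |y x| := by
        rw [h2, abs_mul, abs_neg, abs_mul (1 + b x),
          abs_of_nonneg (by linarith [hb0 x] : 0 ≤ 1 + b x)]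
        exact mul_le_mul_of_nonneg_right h3 (abs_nonneg _)
      calc |t⁻¹ * (sy b t x - 1) * φ x - y x| ≤ |t⁻¹ * (sy b t x - 1) * φ x| + |y x| :=
            abs_sub _ _
        _ ≤ |y x| + |y x| := by linarith
        _ = 2 * ‖y x‖ := by rw [Real.norm_eq_abs]; ring
    · filter_upwards [h] with x h2
      rw [h2]
      have := (hq x).mul_const (φ x)
      convert this using 2
      ring
    · intro t
      refine AEStronglyMeasurable.mul ?_ (Lp.aestronglyMeasurable φ)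
      exact (((sy_bd hb hb0 t).meas.sub_const 1).const_mul _).aestronglyMeasurable

end

/-! ### The averaging operator and the perturbation -/

section

variable [IsProbabilityMeasure ν]

/-- The constant function `1` as an element of `L¹(ν)`. -/
noncomputable def one (ν : Measure Ξ) [IsProbabilityMeasure ν] : Lp ℝ 1 ν :=
  (integrable_const (1 : ℝ) : Integrable (fun _ : Ξ => (1 : ℝ)) ν).toL1 _

lemma one_coe : (one ν : Ξ → ℝ) =ᵐ[ν] fun _ => 1 := Integrable.coeFn_toL1 _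

/-- The averaging operator `φ ↦ (∫ φ) 1`. -/
noncomputable def T (ν : Measure Ξ) [IsProbabilityMeasure ν] : Lp ℝ 1 ν →L[ℝ] Lp ℝ 1 ν :=
  (L1.integralCLM : Lp ℝ 1 ν →L[ℝ] ℝ).smulRight (one ν)

lemma T_apply (φ : Lp ℝ 1 ν) : T ν φ = (∫ x, φ x ∂ν) • one ν := by
  have : (L1.integralCLM : Lp ℝ 1 ν →L[ℝ] ℝ) φ = ∫ x, φ x ∂ν := by
    rw [← L1.integral_eq_integral, L1.integral_eq]
  rw [T, ContinuousLinearMap.smulRight_apply, this]

lemma T_coe (φ : Lp ℝ 1 ν) : (T ν φ : Ξ → ℝ) =ᵐ[ν] fun _ => ∫ x, φ x ∂ν := by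
  rw [T_apply]
  filter_upwards [Lp.coeFn_smul (∫ x, φ x ∂ν) (one ν), one_coe (ν := ν)] with x h1 h2
  rw [h1, Pi.smul_apply, h2, smul_eq_mul, mul_one]

lemma integral_one : ∫ x, one ν x ∂ν = 1 := by
  rw [integral_congr_ae one_coe]
  simp

lemma T_one : T ν (one ν) = one ν := by
  rw [T_apply, integral_one, one_smul]

lemma T_T (φ : Lp ℝ 1 ν) : T ν (T ν φ) = T ν φ := by
  rw [T_apply φ, map_smul, T_one]

lemma T_norm : ‖T ν‖ ≤ 1 := by
  refine ContinuousLinearMap.opNorm_le_bound _ zero_le_one fun φ => ?_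
  rw [one_mul, L1.norm_eq_integral_norm, L1.norm_eq_integral_norm]
  have h1 : ∫ x, ‖(T ν φ : Ξ → ℝ) x‖ ∂ν = ‖∫ x, φ x ∂ν‖ := by
    have : ∫ x, ‖(T ν φ : Ξ → ℝ) x‖ ∂ν = ∫ _ : Ξ, ‖∫ x, φ x ∂ν‖ ∂ν := by
      refine integral_congr_ae ?_
      filter_upwards [T_coe φ] with x h
      rw [h]
    rw [this]
    simp
  rw [h1]
  exact norm_integral_le_integral_norm _

lemma T_nonneg {φ : Lp ℝ 1 ν} (hφ : 0 ≤ φ) : 0 ≤ T ν φ := by
  rw [← Lp.coeFn_nonneg] at hφ ⊢
  filter_upwards [T_coe φ] with x h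
  rw [h]
  exact integral_nonneg_of_ae hφ

lemma integral_T (φ : Lp ℝ 1 ν) : ∫ x, (T ν φ) x ∂ν = ∫ x, φ x ∂ν := by
  rw [integral_congr_ae (T_coe φ)]
  simp

lemma one_nonneg : 0 ≤ one ν := by
  rw [← Lp.coeFn_nonneg]
  filter_upwards [one_coe (ν := ν)] with x h
  rw [h]
  exact zero_le_one

lemma one_ne : one ν ≠ 0 := by
  intro h
  have h1 := integral_one (ν := ν)
  rw [h] at h1
  have h2 : ∫ x, (0 : Lp ℝ 1 ν) x ∂ν = 0 := by
    rw [integral_congr_ae (Lp.coeFn_zero ℝ 1 ν)]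
    simp
  rw [h2] at h1
  exact zero_ne_one h1

/-- The domain `{φ : b φ ∈ L¹}`. -/
def dom (ν : Measure Ξ) (b : Ξ → ℝ) : Submodule ℝ (Lp ℝ 1 ν) where
  carrier := {φ | Integrable (fun x => b x * φ x) ν}
  add_mem' := by
    intro φ ψ h1 h2
    refine (Integrable.add h1 h2).congr ?_
    filter_upwards [Lp.coeFn_add φ ψ] with x hx
    rw [hx]
    simp only [Pi.add_apply]
    ring
  zero_mem' := by
    refine (integrable_zero Ξ ℝ ν).congr ?_
    filter_upwards [Lp.coeFn_zero ℝ 1 ν] with x hx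
    rw [hx]
    simp
  smul_mem' := by
    intro c φ h
    refine (Integrable.const_mul h c).congr ?_
    filter_upwards [Lp.coeFn_smul c φ] with x hx
    rw [hx]
    simp only [Pi.smul_apply, smul_eq_mul]
    ring

/-- The perturbation `P φ = (∫ φ) 1 + b φ` with domain `{φ : b φ ∈ L¹}`. -/
noncomputable def Pop (ν : Measure Ξ) [IsProbabilityMeasure ν] (b : Ξ → ℝ) :
    Lp ℝ 1 ν →ₗ.[ℝ] Lp ℝ 1 ν where
  domain := dom ν b
  toFun :=
    { toFun := fun φ => T ν φ.1 + Integrable.toL1 _ φ.2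
      map_add' := by
        intro φ ψ
        refine Lp.ext ?_
        filter_upwards [Lp.coeFn_add (T ν (φ + ψ).1) (Integrable.toL1 _ (φ + ψ).2),
          Lp.coeFn_add (T ν φ.1 + Integrable.toL1 _ φ.2) (T ν ψ.1 + Integrable.toL1 _ ψ.2),
          Lp.coeFn_add (T ν φ.1) (Integrable.toL1 _ φ.2),
          Lp.coeFn_add (T ν ψ.1) (Integrable.toL1 _ ψ.2),
          Lp.coeFn_add (T ν φ.1) (T ν ψ.1),
          Lp.coeFn_add φ.1 ψ.1,
          Integrable.coeFn_toL1 φ.2, Integrable.coeFn_toL1 ψ.2, Integrable.coeFn_toL1 (φ + ψ).2]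
          with x h1 h2 h3 h4 h5 h6 h7 h8 h9
        rw [h1, h2, Pi.add_apply, Pi.add_apply, h3, h4, Pi.add_apply, Pi.add_apply, h7, h8, h9]
        have e : (T ν (φ + ψ).1 : Ξ → ℝ) x = (T ν φ.1 : Ξ → ℝ) x + (T ν ψ.1 : Ξ → ℝ) x := by
          rw [Submodule.coe_add, map_add, h5, Pi.add_apply]
        rw [e, Submodule.coe_add, h6, Pi.add_apply]
        ring
      map_smul' := by
        intro c φ
        refine Lp.ext ?_
        filter_upwards [Lp.coeFn_add (T ν (c • φ).1) (Integrable.toL1 _ (c • φ).2),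
          Lp.coeFn_smul c (T ν φ.1 + Integrable.toL1 _ φ.2),
          Lp.coeFn_add (T ν φ.1) (Integrable.toL1 _ φ.2),
          Lp.coeFn_smul c (T ν φ.1),
          Lp.coeFn_smul c φ.1,
          Integrable.coeFn_toL1 φ.2, Integrable.coeFn_toL1 (c • φ).2]
          with x h1 h2 h3 h5 h6 h7 h9
        rw [RingHom.id_apply, h1, h2, Pi.smul_apply, Pi.add_apply, h3, Pi.add_apply, h7, h9]
        have e : (T ν (c • φ).1 : Ξ → ℝ) x = c * (T ν φ.1 : Ξ → ℝ) x := by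
          rw [Submodule.coe_smul, map_smul, h5, Pi.smul_apply, smul_eq_mul]
        rw [e, Submodule.coe_smul, h6, Pi.smul_apply, smul_eq_mul, smul_eq_mul]
        ring }

lemma Pop_coe {b : Ξ → ℝ} (φ : (Pop ν b).domain) :
    (Pop ν b φ : Ξ → ℝ) =ᵐ[ν] fun x => (∫ x, (φ.1 : Ξ → ℝ) x ∂ν) + b x * (φ.1 : Ξ → ℝ) x := by
  have e : Pop ν b φ = T ν φ.1 + Integrable.toL1 _ φ.2 := rfl
  rw [e]
  filter_upwards [Lp.coeFn_add (T ν φ.1) (Integrable.toL1 _ φ.2), T_coe φ.1,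
    Integrable.coeFn_toL1 φ.2] with x h1 h2 h3
  rw [h1, Pi.add_apply, h2, h3]

lemma mem_graph {b : Ξ → ℝ} (φ z : Lp ℝ 1 ν) : (φ, z) ∈ (Pop ν b).graph ↔
    (z : Ξ → ℝ) =ᵐ[ν] fun x => (∫ x, φ x ∂ν) + b x * φ x := by
  rw [LinearPMap.mem_graph_iff]
  constructor
  · rintro ⟨w, h1, h2⟩
    simp only at h1 h2
    have h3 := Pop_coe w
    rw [h2, h1] at h3
    exact h3
  · intro h
    have h1 : Integrable (fun x => b x * φ x) ν := by
      refine ((L1.integrable_coeFn z).sub (integrable_const (∫ x, φ x ∂ν))).congr ?_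
      filter_upwards [h] with x hx
      rw [Pi.sub_apply, hx]
      ring
    refine ⟨⟨φ, h1⟩, rfl, ?_⟩
    refine Lp.ext ?_
    filter_upwards [Pop_coe (b := b) (⟨φ, h1⟩ : (Pop ν b).domain), h] with x h2 h3
    exact h2.trans h3.symm

/-! ### The Kato–Voigt semigroup -/

/-- The semigroup `J(t) = e^{-t} I + (1 - e^{-t}) T`. -/
noncomputable def J (ν : Measure Ξ) [IsProbabilityMeasure ν] (t : ℝ) : Lp ℝ 1 ν →L[ℝ] Lp ℝ 1 ν :=
  Real.exp (-t) • ContinuousLinearMap.id ℝ _ + (1 - Real.exp (-t)) • T ν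

lemma J_apply (t : ℝ) (φ : Lp ℝ 1 ν) :
    J ν t φ = Real.exp (-t) • φ + (1 - Real.exp (-t)) • T ν φ := rfl

lemma J_sub : IsSubstochastic (J ν) where
  zero := by
    intro φ
    rw [J_apply]
    simp
  add := by
    intro s t _ _ φ
    simp only [J_apply, map_add, map_smul, T_T]
    have e : Real.exp (-(s + t)) = Real.exp (-s) * Real.exp (-t) := by
      rw [← Real.exp_add]
      congr 1
      ring
    rw [e]
    module
  cont := by
    intro φ
    have h : Continuous fun t : ℝ => J ν t φ := by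
      simp only [J_apply]
      fun_prop
    have h2 := h.tendsto 0
    have h3 : J ν 0 φ = φ := by rw [J_apply]; simp
    rw [h3] at h2
    exact h2.mono_left nhdsWithin_le_nhds
  pos := by
    intro t ht φ hφ
    have h1 : Real.exp (-t) ≤ 1 := by rw [Real.exp_le_one_iff]; linarith
    have h2 := T_nonneg hφ
    rw [← Lp.coeFn_nonneg] at hφ h2 ⊢
    rw [J_apply]
    filter_upwards [Lp.coeFn_add (Real.exp (-t) • φ) ((1 - Real.exp (-t)) • T ν φ),
      Lp.coeFn_smul (Real.exp (-t)) φ, Lp.coeFn_smul (1 - Real.exp (-t)) (T ν φ), hφ, h2]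
      with x e1 e2 e3 e4 e5
    rw [e1, Pi.add_apply, e2, e3, Pi.smul_apply, Pi.smul_apply, smul_eq_mul, smul_eq_mul]
    exact add_nonneg (mul_nonneg (Real.exp_pos _).le e4) (mul_nonneg (by linarith) e5)
  contr := by
    intro t ht
    have h1 : Real.exp (-t) ≤ 1 := by rw [Real.exp_le_one_iff]; linarith
    refine ContinuousLinearMap.opNorm_le_bound _ zero_le_one fun φ => ?_
    rw [J_apply, one_mul]
    have h2 : ‖T ν φ‖ ≤ ‖φ‖ := by
      calc ‖T ν φ‖ ≤ ‖T ν‖ * ‖φ‖ := (T ν).le_opNorm _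
        _ ≤ 1 * ‖φ‖ := by gcongr; exact T_norm
        _ = _ := one_mul _
    refine (norm_add_le _ _).trans ?_
    rw [norm_smul, norm_smul, Real.norm_eq_abs, Real.norm_eq_abs, abs_of_pos (Real.exp_pos _),
      abs_of_nonneg (by linarith)]
    nlinarith [Real.exp_pos (-t), norm_nonneg φ, h2]

lemma J_gen (φ y : Lp ℝ 1 ν) : Gen (J ν) φ y ↔ y = T ν φ - φ := by
  have h : Gen (J ν) φ (T ν φ - φ) := by
    have h1 : HasDerivAt (fun t : ℝ => 1 - Real.exp (-t)) 1 0 := by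
      have := (((hasDerivAt_id (0 : ℝ)).neg).exp).const_sub 1
      simpa using this
    have h2 := (hasDerivWithinAt_iff_tendsto_slope' (s := Ioi (0 : ℝ)) (by simp)).1
      (h1.hasDerivWithinAt (s := Ioi 0))
    have h3 := h2.smul_const (T ν φ - φ)
    rw [one_smul] at h3
    refine h3.congr fun t => ?_
    rw [slope_def_module, J_apply]
    simp only [sub_zero, neg_zero, Real.exp_zero, sub_self, smul_eq_mul]
    rw [← smul_smul]
    congr 1
    module
  constructor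
  · intro h'
    exact h'.unique h
  · rintro rfl
    exact h

end

section

variable [IsProbabilityMeasure ν] {b : Ξ → ℝ} (hb : Measurable b) (hb0 : ∀ x, 0 ≤ b x)

lemma gen_iff_dom (φ : Lp ℝ 1 ν) : (∃ y, Gen (S1 ν hb hb0) φ y) ↔ φ ∈ (Pop ν b).domain := by
  constructor
  · rintro ⟨y, hy⟩
    rw [S1_gen] at hy
    have h1 : Integrable (fun x => b x * φ x) ν := by
      refine ((L1.integrable_coeFn y).neg.sub (L1.integrable_coeFn φ)).congr ?_
      filter_upwards [hy] with x hx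
      rw [Pi.sub_apply, Pi.neg_apply, hx]
      ring
    exact h1
  · intro h
    have h1 : Integrable (fun x => b x * φ x) ν := h
    have h2 : Integrable (fun x => -((1 + b x) * φ x)) ν := by
      refine ((h1.add (L1.integrable_coeFn φ)).neg).congr ?_
      refine Eventually.of_forall fun x => ?_
      simp only [Pi.neg_apply, Pi.add_apply]
      ring
    refine ⟨h2.toL1 _, ?_⟩
    rw [S1_gen]
    exact Integrable.coeFn_toL1 h2

/-- On `D(M₁)` the operator `M₁ + P` is `T - I`. -/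
lemma sumGraph_iff (φ w : Lp ℝ 1 ν) : (φ, w) ∈ sumGraph (S1 ν hb hb0) (Pop ν b) ↔
    φ ∈ (Pop ν b).domain ∧ w = T ν φ - φ := by
  have key : ∀ y z : Lp ℝ 1 ν, Gen (S1 ν hb hb0) φ y → (φ, z) ∈ (Pop ν b).graph →
      y + z = T ν φ - φ := by
    intro y z hy hz
    rw [S1_gen] at hy
    rw [mem_graph] at hz
    refine Lp.ext ?_
    filter_upwards [Lp.coeFn_add y z, Lp.coeFn_sub (T ν φ) φ, T_coe φ, hy, hz]
      with x h1 h2 h3 h4 h5
    rw [h1, h2, Pi.add_apply, Pi.sub_apply, h3, h4, h5]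
    ring
  constructor
  · rintro ⟨y, z, hy, hz, hw⟩
    simp only at hy hz hw
    refine ⟨(gen_iff_dom hb hb0 φ).1 ⟨y, hy⟩, ?_⟩
    rw [hw]
    exact key y z hy hz
  · rintro ⟨hφ, hw⟩
    obtain ⟨y, hy⟩ := (gen_iff_dom hb hb0 φ).2 hφ
    have hz : (φ, Pop ν b ⟨φ, hφ⟩) ∈ (Pop ν b).graph := LinearPMap.mem_graph _ (⟨φ, hφ⟩ : (Pop ν b).domain)
    exact ⟨y, _, hy, hz, by rw [hw]; exact (key y _ hy hz).symm⟩

lemma admissible : Admissible (fun φ : Lp ℝ 1 ν => ∫ x, φ x ∂ν) (S1 ν hb hb0) (Pop ν b) where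
  pos := by
    intro φ hφ
    have h1 := hφ
    rw [← Lp.coeFn_nonneg] at h1 ⊢
    filter_upwards [Pop_coe φ, h1] with x h2 h3
    rw [h2]
    exact add_nonneg (integral_nonneg_of_ae h1) (mul_nonneg (hb0 x) h3)
  dom := fun φ y h => (gen_iff_dom hb hb0 φ).1 ⟨y, h⟩
  diss := by
    intro φ y z h hz _
    have h1 : (φ, y + z) ∈ sumGraph (S1 ν hb hb0) (Pop ν b) := ⟨y, z, h, hz, rfl⟩
    rw [sumGraph_iff] at h1
    rw [h1.2]
    rw [integral_congr_ae (Lp.coeFn_sub (T ν φ) φ)]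
    simp only [Pi.sub_apply]
    rw [integral_sub (L1.integrable_coeFn _) (L1.integrable_coeFn _), integral_T]
    simp

include hb hb0 in
/-- The domain of `M₁` is dense, with an explicit approximation. -/
lemma approx (φ : Lp ℝ 1 ν) {ε : ℝ} (hε : 0 < ε) :
    ∃ ψ : Lp ℝ 1 ν, ψ ∈ (Pop ν b).domain ∧ ‖ψ - φ‖ < ε := by
  have h1 := (S1_sub (ν := ν) hb hb0).cont φ
  have h2 : ∀ᶠ t in 𝓝[>] (0 : ℝ), ‖S1 ν hb hb0 t φ - φ‖ < ε := by
    have := (tendsto_iff_norm_sub_tendsto_zero.1 h1).eventually (Iio_mem_nhds hε)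
    exact this
  obtain ⟨t, ht, ht0⟩ := (h2.and self_mem_nhdsWithin).exists
  have ht0' : (0 : ℝ) < t := ht0
  refine ⟨S1 ν hb hb0 t φ, ?_, ht⟩
  have h3 : Integrable (fun x => (b x * sy b t x) * φ x) ν := by
    refine (L1.integrable_coeFn φ).bdd_mul (c := t⁻¹) ?_ (Eventually.of_forall fun x => ?_)
    · exact (hb.mul (sy_bd hb hb0 t).meas).aestronglyMeasurable
    · unfold sy
      rw [Real.norm_eq_abs, abs_mul, abs_of_nonneg (hb0 x), abs_of_pos (Real.exp_pos _),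
        max_eq_left ht0'.le, Real.exp_neg, ← div_eq_mul_inv, div_le_iff₀ (Real.exp_pos _)]
      have h4 := Real.add_one_le_exp (t * (1 + b x))
      have h5 : t * b x ≤ Real.exp (t * (1 + b x)) := by nlinarith
      calc b x = t⁻¹ * (t * b x) := by field_simp
        _ ≤ t⁻¹ * Real.exp (t * (1 + b x)) := by gcongr
  have h6 : Integrable (fun x => b x * (S1 ν hb hb0 t φ : Ξ → ℝ) x) ν := by
    refine h3.congr ?_
    filter_upwards [S1_coe hb hb0 t φ] with x hx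
    rw [hx]
    ring
  exact h6

/-- The Kato–Voigt semigroup is honest. -/
lemma honest : genGraph (J ν) = closure (sumGraph (S1 ν hb hb0) (Pop ν b)) := by
  refine Subset.antisymm ?_ ?_
  · rintro ⟨φ, y⟩ h
    have h' : Gen (J ν) φ y := h
    rw [J_gen] at h'
    rw [Metric.mem_closure_iff]
    intro ε hε
    obtain ⟨ψ, h1, h2⟩ := approx hb hb0 φ (half_pos hε)
    refine ⟨(ψ, T ν ψ - ψ), (sumGraph_iff hb hb0 _ _).2 ⟨h1, rfl⟩, ?_⟩
    rw [Prod.dist_eq, max_lt_iff, dist_eq_norm, dist_eq_norm, h']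
    constructor
    · rw [norm_sub_rev]
      linarith
    · have e : T ν φ - φ - (T ν ψ - ψ) = T ν (φ - ψ) + (ψ - φ) := by rw [map_sub]; abel
      simp only
      rw [e]
      have h3 : ‖T ν (φ - ψ)‖ ≤ ‖ψ - φ‖ := by
        calc ‖T ν (φ - ψ)‖ ≤ ‖T ν‖ * ‖φ - ψ‖ := (T ν).le_opNorm _
          _ ≤ 1 * ‖φ - ψ‖ := by gcongr; exact T_norm
          _ = ‖ψ - φ‖ := by rw [one_mul, norm_sub_rev]
      linarith [norm_add_le (T ν (φ - ψ)) (ψ - φ)]
  · have hcl : IsClosed (genGraph (J ν)) := by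
      have e : genGraph (J ν) = {p : Lp ℝ 1 ν × Lp ℝ 1 ν | p.2 = T ν p.1 - p.1} := by
        ext p
        exact J_gen p.1 p.2
      rw [e]
      exact isClosed_eq continuous_snd (by fun_prop)
    refine closure_minimal ?_ hcl
    rintro ⟨φ, y⟩ h
    rw [sumGraph_iff] at h
    exact (J_gen φ y).2 h.2

/-- Any substochastic semigroup whose generator extends `M₁ + P` is `J`. -/
lemma unique_semi {J' : ℝ → Lp ℝ 1 ν →L[ℝ] Lp ℝ 1 ν} (hJ : IsSubstochastic J')
    (h : sumGraph (S1 ν hb hb0) (Pop ν b) ⊆ genGraph J') {t : ℝ} (ht : 0 ≤ t) (φ : Lp ℝ 1 ν) :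
    J' t φ = J ν t φ := by
  have h1 : ∀ ψ : Lp ℝ 1 ν, Gen J' ψ (T ν ψ - ψ) := by
    intro ψ
    refine gen_closed hJ.toIsC0 hJ.contr fun ε hε => ?_
    obtain ⟨ψ', h1, h2⟩ := approx hb hb0 ψ (half_pos hε)
    refine ⟨ψ', T ν ψ' - ψ', ?_, by linarith, ?_⟩
    · exact h ((sumGraph_iff hb hb0 ψ' _).2 ⟨h1, rfl⟩)
    · have e : T ν ψ' - ψ' - (T ν ψ - ψ) = T ν (ψ' - ψ) + (ψ - ψ') := by rw [map_sub]; abel
      rw [e]
      have h3 : ‖T ν (ψ' - ψ)‖ ≤ ‖ψ' - ψ‖ := by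
        calc ‖T ν (ψ' - ψ)‖ ≤ ‖T ν‖ * ‖ψ' - ψ‖ := (T ν).le_opNorm _
          _ ≤ 1 * ‖ψ' - ψ‖ := by gcongr; exact T_norm
          _ = ‖ψ' - ψ‖ := one_mul _
      have h4 : ‖ψ - ψ'‖ = ‖ψ' - ψ‖ := norm_sub_rev _ _
      linarith [norm_add_le (T ν (ψ' - ψ)) (ψ - ψ')]
  have h2 : J' t (φ - T ν φ) = Real.exp (-((1 : ℝ) * t)) • (φ - T ν φ) := by
    refine eigen_orbit hJ.toIsC0 hJ.contr ?_ ht
    have e2 : -((1 : ℝ) • (φ - T ν φ)) = T ν (φ - T ν φ) - (φ - T ν φ) := by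
      rw [map_sub, T_T, one_smul]
      abel
    rw [e2]
    exact h1 _
  have h3 : J' t (T ν φ) = Real.exp (-((0 : ℝ) * t)) • (T ν φ) := by
    refine eigen_orbit hJ.toIsC0 hJ.contr ?_ ht
    have := h1 (T ν φ)
    rw [T_T, sub_self] at this
    rwa [zero_smul, neg_zero]
  have e : φ = (φ - T ν φ) + T ν φ := by abel
  calc J' t φ = J' t (φ - T ν φ) + J' t (T ν φ) := by rw [← map_add, ← e]
    _ = J ν t φ := by
      rw [h2, h3, J_apply, one_mul, zero_mul, neg_zero, Real.exp_zero, one_smul, smul_sub,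
        sub_smul, one_smul]
      abel

lemma katoVoigt : IsKatoVoigt (S1 ν hb hb0) (Pop ν b) (J ν) where
  sub := J_sub
  ext := by
    rw [honest hb hb0]
    exact subset_closure
  minimal := by
    intro J' hJ' h t ht φ _
    rw [unique_semi hb hb0 hJ' h ht φ]

end

end Pool.Agent.Q213.KV
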