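import Mathlib

/-!
Abstract part: contraction semigroups.  The generator of a strongly continuous contraction
semigroup is closed, and its eigenvectors evolve exponentially.
-/

namespace Pool.Agent.Q213.KV

open MeasureTheory Filter Topology Set

/-- `S` is a strongly continuous one-parameter semigroup (`C₀`-semigroup) on `X`; only the values
`S t` with `t ≥ 0` matter. -/
structure IsC0 {X : Type*} [NormedAddCommGroup X] [NormedSpace ℝ X] (S : ℝ → X →L[ℝ] X) :
    Prop where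
  zero : ∀ x, S 0 x = x
  add : ∀ s t, 0 ≤ s → 0 ≤ t → ∀ x, S (s + t) x = S s (S t x)
  cont : ∀ x, Tendsto (fun t : ℝ => S t x) (𝓝[>] 0) (𝓝 x)

/-- `Gen S x y`: the vector `x` lies in the domain of the generator of `S`, and the generator
maps it to `y`. -/
def Gen {X : Type*} [NormedAddCommGroup X] [NormedSpace ℝ X] (S : ℝ → X →L[ℝ] X) (x y : X) :
    Prop :=
  Tendsto (fun t : ℝ => t⁻¹ • (S t x - x)) (𝓝[>] 0) (𝓝 y)

variable {X : Type*} [NormedAddCommGroup X] [NormedSpace ℝ X] {S : ℝ → X →L[ℝ] X}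

lemma Gen.unique {x y z : X} (h : Gen S x y) (h' : Gen S x z) : y = z :=
  tendsto_nhds_unique h h'

/-- The orbit moves by at most the initial displacement. -/
lemma orbit_dist (hS : IsC0 S) (hc : ∀ t, 0 ≤ t → ‖S t‖ ≤ 1) (x : X) {s t : ℝ} (hs : 0 ≤ s)
    (ht : 0 ≤ t) : ‖S t x - S s x‖ ≤ ‖S |t - s| x - x‖ := by
  have key : ∀ a h : ℝ, 0 ≤ a → 0 ≤ h → ‖S (a + h) x - S a x‖ ≤ ‖S h x - x‖ := by
    intro a h ha hh
    rw [hS.add a h ha hh, ← map_sub]
    calc ‖S a (S h x - x)‖ ≤ ‖S a‖ * ‖S h x - x‖ := (S a).le_opNorm _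
      _ ≤ 1 * ‖S h x - x‖ := by gcongr; exact hc a ha
      _ = _ := one_mul _
  rcases le_total s t with h | h
  · have := key s (t - s) hs (by linarith)
    rw [abs_of_nonneg (by linarith)]
    simpa using this
  · have := key t (s - t) ht (by linarith)
    rw [abs_of_nonpos (by linarith), neg_sub]
    rw [norm_sub_rev]
    simpa using this

lemma orbit_cont0 (hS : IsC0 S) (x : X) : Tendsto (fun t : ℝ => ‖S t x - x‖) (𝓝[≥] 0) (𝓝 0) := by
  have h1 : Tendsto (fun t : ℝ => S t x) (𝓝[≥] 0) (𝓝 x) := by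
    rw [← Ioi_union_left, nhdsWithin_union]
    refine (hS.cont x).sup ?_
    rw [nhdsWithin_singleton]
    have : Tendsto (fun t : ℝ => S t x) (pure 0) (𝓝 (S 0 x)) := tendsto_pure_nhds _ _
    rwa [hS.zero x] at this
  have h2 := (h1.sub_const x).norm
  simpa using h2

lemma orbit_continuousOn (hS : IsC0 S) (hc : ∀ t, 0 ≤ t → ‖S t‖ ≤ 1) (x : X) :
    ContinuousOn (fun t => S t x) (Ici 0) := by
  intro t ht
  rw [ContinuousWithinAt, tendsto_iff_norm_sub_tendsto_zero]
  have h1 : Tendsto (fun s : ℝ => |s - t|) (𝓝[Ici 0] t) (𝓝[≥] 0) := by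
    refine tendsto_nhdsWithin_iff.2 ⟨?_, Eventually.of_forall fun s => mem_Ici.2 (abs_nonneg _)⟩
    have : Tendsto (fun s : ℝ => |s - t|) (𝓝 t) (𝓝 |t - t|) :=
      ((continuous_id.sub continuous_const).abs).tendsto t
    rw [sub_self, abs_zero] at this
    exact this.mono_left nhdsWithin_le_nhds
  refine squeeze_zero' (Eventually.of_forall fun s => norm_nonneg _) ?_ ((orbit_cont0 hS x).comp h1)
  filter_upwards [self_mem_nhdsWithin] with s hs
  exact orbit_dist hS hc x ht hs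

lemma orbit_deriv (hS : IsC0 S) {x y : X} (h : Gen S x y) {t : ℝ} (ht : 0 ≤ t) :
    HasDerivWithinAt (fun s => S s x) (S t y) (Ici t) t := by
  rw [← hasDerivWithinAt_Ioi_iff_Ici]
  rw [hasDerivWithinAt_iff_tendsto_slope' (by simp)]
  have h1 : Tendsto (fun s : ℝ => s - t) (𝓝[>] t) (𝓝[>] 0) := by
    refine tendsto_nhdsWithin_iff.2 ⟨?_, ?_⟩
    · have : Tendsto (fun s : ℝ => s - t) (𝓝 t) (𝓝 (t - t)) :=
        (continuous_id.sub continuous_const).tendsto t
      rw [sub_self] at this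
      exact this.mono_left nhdsWithin_le_nhds
    · filter_upwards [self_mem_nhdsWithin] with s hs
      simpa using hs
  have h2 := ((S t).continuous.tendsto y).comp (Tendsto.comp h h1)
  refine h2.congr' ?_
  filter_upwards [self_mem_nhdsWithin] with s hs
  have hs' : t < s := hs
  have e1 : S s x = S t (S (s - t) x) := by
    rw [← hS.add t (s - t) ht (by linarith)]
    congr 2
    ring
  simp only [Function.comp, slope_def_module]
  rw [map_smul, map_sub, e1]

/-- The generator of a contraction semigroup is closed. -/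
lemma gen_closed (hS : IsC0 S) (hc : ∀ t, 0 ≤ t → ‖S t‖ ≤ 1) {x y : X}
    (h : ∀ ε : ℝ, 0 < ε → ∃ x' y', Gen S x' y' ∧ ‖x' - x‖ < ε ∧ ‖y' - y‖ < ε) : Gen S x y := by
  have main : ∀ t : ℝ, 0 < t → ∀ C : ℝ, (∀ s, 0 ≤ s → s < t → ‖S s y - y‖ ≤ C) →
      ‖S t x - x - t • y‖ ≤ C * t := by
    intro t ht C hC
    refine le_of_forall_pos_le_add fun ε hε => ?_
    obtain ⟨x', y', hg, hx, hy⟩ := h (ε / (2 + t)) (by positivity)
    have h1 : ‖(S t x' - t • y) - (S 0 x' - (0 : ℝ) • y)‖ ≤ (C + ε / (2 + t)) * (t - 0) := by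
      refine norm_image_sub_le_of_norm_deriv_right_le_segment
        (f := fun s => S s x' - s • y) (f' := fun s => S s y' - y) (a := 0) (b := t) ?_ ?_ ?_ t
        ⟨ht.le, le_rfl⟩
      · refine ContinuousOn.sub ?_ (by fun_prop)
        exact (orbit_continuousOn hS hc x').mono Icc_subset_Ici_self
      · intro s hs
        refine (orbit_deriv hS hg hs.1).sub ?_
        simpa using (hasDerivWithinAt_id s (Ici s)).smul_const y
      · intro s hs
        have e1 : S s y' - y = S s (y' - y) + (S s y - y) := by rw [map_sub]; abel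
        rw [e1]
        calc ‖S s (y' - y) + (S s y - y)‖ ≤ ‖S s (y' - y)‖ + ‖S s y - y‖ := norm_add_le _ _
          _ ≤ ‖S s‖ * ‖y' - y‖ + C := add_le_add ((S s).le_opNorm _) (hC s hs.1 hs.2)
          _ ≤ 1 * ‖y' - y‖ + C := by gcongr; exact hc s hs.1
          _ ≤ C + ε / (2 + t) := by linarith
    have e2 : S t x - x - t • y = ((S t x' - t • y) - (S 0 x' - (0 : ℝ) • y)) - S t (x' - x)
        + (x' - x) := by
      rw [map_sub, hS.zero, zero_smul]; abel
    have h2 : ‖S t (x' - x)‖ ≤ ‖x' - x‖ := by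
      calc ‖S t (x' - x)‖ ≤ ‖S t‖ * ‖x' - x‖ := (S t).le_opNorm _
        _ ≤ 1 * ‖x' - x‖ := by gcongr; exact hc t ht.le
        _ = _ := one_mul _
    have h3 : ‖S t x - x - t • y‖ ≤ (C + ε / (2 + t)) * (t - 0) + ‖x' - x‖ + ‖x' - x‖ := by
      rw [e2]
      refine (norm_add_le _ _).trans (add_le_add ((norm_sub_le _ _).trans (add_le_add h1 h2)) le_rfl)
    have h4 : ε / (2 + t) * t + 2 * (ε / (2 + t)) = ε := by field_simp; ring
    nlinarith [h3, hx, h4]
  rw [Gen, Metric.tendsto_nhds]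
  intro ε hε
  have h5 : ∀ᶠ s in 𝓝[≥] (0 : ℝ), ‖S s y - y‖ < ε / 2 :=
    (orbit_cont0 hS y).eventually (Iio_mem_nhds (by positivity))
  obtain ⟨δ, hδ, hδ'⟩ := Metric.mem_nhdsWithin_iff.1 h5
  have h6 : ∀ᶠ t in 𝓝[>] (0 : ℝ), t < δ := by
    have : Iio δ ∈ 𝓝 (0 : ℝ) := Iio_mem_nhds hδ
    exact mem_nhdsWithin_of_mem_nhds this
  filter_upwards [h6, self_mem_nhdsWithin] with t ht ht0
  have ht0' : (0 : ℝ) < t := ht0
  have h7 := main t ht0' (ε / 2) (fun s hs0 hst => by
    have : s ∈ Metric.ball (0 : ℝ) δ ∩ Ici 0 := by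
      refine ⟨?_, hs0⟩
      rw [Metric.mem_ball, Real.dist_eq, sub_zero, abs_of_nonneg hs0]
      linarith
    exact (hδ' this).le)
  rw [dist_eq_norm]
  have e3 : t⁻¹ • (S t x - x) - y = t⁻¹ • (S t x - x - t • y) := by
    rw [smul_sub t⁻¹ (S t x - x), smul_smul, inv_mul_cancel₀ ht0'.ne', one_smul]
  rw [e3, norm_smul, norm_inv, Real.norm_eq_abs, abs_of_pos ht0']
  calc t⁻¹ * ‖S t x - x - t • y‖ ≤ t⁻¹ * (ε / 2 * t) := by gcongr
    _ = ε / 2 := by field_simp
    _ < ε := by linarith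

/-- Eigenvectors of the generator evolve exponentially. -/
lemma eigen_orbit (hS : IsC0 S) (hc : ∀ t, 0 ≤ t → ‖S t‖ ≤ 1) {z : X} {c : ℝ}
    (h : Gen S z (-(c • z))) {t : ℝ} (ht : 0 ≤ t) : S t z = Real.exp (-(c * t)) • z := by
  have h1 : Real.exp (c * t) • S t z = Real.exp (c * 0) • S 0 z := by
    refine constant_of_has_deriv_right_zero (f := fun s => Real.exp (c * s) • S s z) (a := 0)
      (b := t) ?_ ?_ t ⟨ht, le_rfl⟩
    · refine ContinuousOn.smul (by fun_prop) ?_
      exact (orbit_continuousOn hS hc z).mono Icc_subset_Ici_self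
    · intro s hs
      have d1 : HasDerivWithinAt (fun s => Real.exp (c * s)) (Real.exp (c * s) * c) (Ici s) s := by
        have := ((hasDerivAt_id s).const_mul c).exp
        simpa using this.hasDerivWithinAt
      have d2 := d1.smul (orbit_deriv hS h hs.1)
      have e : Real.exp (c * s) • (S s) (-(c • z)) + (Real.exp (c * s) * c) • (S s) z = 0 := by
        rw [map_neg, map_smul, smul_neg, smul_smul]
        abel
      rw [e] at d2
      exact d2
  have h2 : S t z = Real.exp (-(c * t)) • (Real.exp (c * t) • S t z) := by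
    rw [smul_smul, ← Real.exp_add]; simp
  rw [h2, h1, hS.zero]
  simp

end Pool.Agent.Q213.KV
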